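import Pool.Agent.PQP.StmtsN

/-! Row FAR of squad PQP: the far region. -/

set_option autoImplicit false

open scoped InnerProductSpace Topology ContDiff Manifold
open MeasureTheory Filter Set

noncomputable section

namespace Pool.Agent.PQP.H92

open Pool.Agent.Helper42_Paneitz Pool.Agent.Helper82_Vir Pool.Agent.FLX

lemma tpe (n : ℕ) {c : ℝ} (hc : 0 < c) :
    Tendsto (fun t : ℝ => t ^ n * Real.exp (-(c * t))) atTop (𝓝 0) := by
  have h1 : Tendsto (fun t : ℝ => c * t) atTop atTop := tendsto_id.const_mul_atTop hc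
  have h2 := ((Real.tendsto_pow_mul_exp_neg_atTop_nhds_zero n).comp h1).const_mul ((c ^ n)⁻¹)
  rw [mul_zero] at h2
  refine h2.congr (fun t => ?_)
  simp only [Function.comp]
  rw [mul_pow]
  field_simp

theorem far (hJEF : JefStmt) (hPSF : PsfStmt) (hABD : AbdStmt) : FarStmt := by
  intro ψ N hψ ε₁ c ρ ε _ hc hρ hε
  obtain ⟨C₁, hC₁, hJ⟩ := hJEF
  obtain ⟨c₂, η, hc₂, _, hP⟩ := hPSF ψ N hψ ρ hρ
  obtain ⟨C₂, c₃, _, hc₃, hA⟩ := hABD ψ N hψ
  have hψc : Continuous ψ := continuous_of_sm hψ.1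
  have e1 : ∀ᶠ t : ℝ in atTop, 4 * (t ^ 1 * Real.exp (-(c * t))) < 1 := by
    have := (tpe 1 hc).const_mul 4
    rw [mul_zero] at this
    exact this.eventually_lt_const one_pos
  have e2 : ∀ᶠ t : ℝ in atTop, 256 * C₁ * (t ^ 7 * Real.exp (-(c₂ * t))) < ε * c₃ := by
    have := (tpe 7 hc₂).const_mul (256 * C₁)
    rw [mul_zero] at this
    exact this.eventually_lt_const (by positivity)
  obtain ⟨T, hT⟩ := eventually_atTop.1 (e1.and (e2.and ((eventually_ge_atTop 1).and
    (eventually_ge_atTop (1 / ρ)))))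
  refine ⟨max T 1, by positivity, ?_⟩
  intro t f w lam htT hB
  obtain ⟨a1, a2, a3, a4⟩ := hT t ((le_max_left _ _).trans htT)
  have ht0 : 0 < t := by linarith
  obtain ⟨⟨hD, A, hA0, hf⟩, _, _, _, _, _, hmas⟩ := hB
  -- the set
  obtain ⟨F, hF⟩ : ∃ F : Set S4, F = {x : S4 | 1 / t < 1 - ⟪(w : E5), (x : E5)⟫_ℝ ∧
      ρ < 1 - ⟪(N : E5), (x : E5)⟫_ℝ} := ⟨_, rfl⟩
  rw [← hF]
  have hFm : MeasurableSet F := by
    rw [hF]
    have g1 : Continuous (fun x : S4 => 1 - ⟪(w : E5), (x : E5)⟫_ℝ) := by fun_prop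
    have g2 : Continuous (fun x : S4 => 1 - ⟪(N : E5), (x : E5)⟫_ℝ) := by fun_prop
    exact ((isOpen_lt continuous_const g1).inter (isOpen_lt continuous_const g2)).measurableSet
  have hu : 1 / (4 * t) ≤ 1 := by
    rw [div_le_one (by positivity)]
    linarith
  have hcapm : MeasurableSet (cap w (1 / (4 * t))) := by
    have : Continuous (fun y : S4 => 1 - ⟪(w : E5), (y : E5)⟫_ℝ) := by fun_prop
    exact (isClosed_le this continuous_const).measurableSet
  have hfi : Integrable f sig := integrable_cont hD.1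
  have hexpc : Continuous (fun x => Real.exp (4 * pot f x)) := by
    have h1 : (fun x => Real.exp (4 * pot f x)) = fun x => f x / (A * Wt ψ t x) := by
      funext x
      have h2 : 0 < A * Wt ψ t x := mul_pos hA0 (Real.exp_pos _)
      rw [eq_div_iff h2.ne', mul_comm]
      exact (hf x).symm
    rw [h1]
    refine hD.1.div ?_ (fun x => (mul_pos hA0 (Real.exp_pos _)).ne')
    unfold Wt
    fun_prop
  have hJ1 := hJ f w F (1 / (4 * t)) hD hFm (by positivity) hu (by
    intro x hx
    rw [hF] at hx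
    have h1 := hx.1
    have h2 : 4 * (1 / (4 * t)) = 1 / t := by field_simp
    rw [h2]
    exact h1.le) (by
    have hsub : cap w (Real.exp (-(c * t))) ⊆ cap w (1 / (4 * t)) := by
      intro y hy
      have h1 : 1 - ⟪(w : E5), (y : E5)⟫_ℝ ≤ Real.exp (-(c * t)) := hy
      have h2 : Real.exp (-(c * t)) ≤ 1 / (4 * t) := by
        rw [le_div_iff₀ (by positivity)]
        rw [pow_one] at a1
        linarith
      exact h1.trans h2
    have h3 : mas f w (Real.exp (-(c * t))) ≤ mas f w (1 / (4 * t)) :=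
      setIntegral_mono_set hfi.integrableOn (ae_of_all _ fun y => (hD.2.1 y).le)
        (ae_of_all _ fun y hy => hsub hy)
    linarith)
  have hG := (hA t A f a3 hD hA0 hf).2 ρ (by
    rw [div_le_iff₀ ht0]
    rw [div_le_iff₀ hρ] at a4
    linarith)
  have hru : (1 / (4 * t)) ^ (-4 : ℝ) = 256 * t ^ 4 := by
    have : (-4 : ℝ) = -((4 : ℕ) : ℝ) := by norm_num
    rw [this, Real.rpow_neg (by positivity), Real.rpow_natCast]
    field_simp
    norm_num
  rw [hru] at hJ1
  calc ∫ x in F, f x ∂sig ≤ ∫ x in F, A * Real.exp (-(c₂ * t)) * Real.exp (4 * pot f x) ∂sig := by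
        refine setIntegral_mono_on hfi.integrableOn
          ((integrable_cont hexpc).const_mul _).integrableOn hFm ?_
        intro x hx
        rw [hF] at hx
        rw [hf x]
        have h1 := (hP x hx.2.le).1
        refine mul_le_mul_of_nonneg_right ?_ (Real.exp_pos _).le
        refine mul_le_mul_of_nonneg_left ?_ hA0.le
        apply Real.exp_le_exp.2
        nlinarith
    _ = A * Real.exp (-(c₂ * t)) * ∫ x in F, Real.exp (4 * pot f x) ∂sig :=
        integral_const_mul _ _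
    _ ≤ A * Real.exp (-(c₂ * t)) * (C₁ * (256 * t ^ 4)) :=
        mul_le_mul_of_nonneg_left hJ1 (by positivity)
    _ = A / t ^ 3 * (256 * C₁ * (t ^ 7 * Real.exp (-(c₂ * t)))) := by
        field_simp
    _ ≤ A / t ^ 3 * (ε * c₃) := mul_le_mul_of_nonneg_left a2.le (by positivity)
    _ = ε * (c₃ * A / t ^ 3) := by ring
    _ ≤ ε * GN N ρ f := mul_le_mul_of_nonneg_left hG hε.le

end Pool.Agent.PQP.H92
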