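import Pool.Agent.PQP.StmtsV
import Pool.Agent.FLX.Stmts

/-! Row JEF of squad PQP: Jensen for the far part. -/

set_option autoImplicit false

open scoped InnerProductSpace Topology ContDiff Manifold
open MeasureTheory Filter Set

noncomputable section

namespace Pool.Agent.PQP.H92

open Pool.Agent.Helper42_Paneitz Pool.Agent.Helper82_Vir Pool.Agent.FLX

lemma nsq (x y : S4) : ‖(x : E5) - (y : E5)‖ ^ 2 = 2 * (1 - ⟪(x : E5), (y : E5)⟫_ℝ) := by
  rw [@norm_sub_sq_real, S4_norm, S4_norm]
  ring

lemma capClosed (w : S4) (u : ℝ) : IsClosed (cap w u) := by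
  have : Continuous (fun y : S4 => 1 - ⟪(w : E5), (y : E5)⟫_ℝ) := by fun_prop
  exact isClosed_le this continuous_const

theorem jef (hJEG : JegStmt) (hPOT : PotStmt) (hKER : Pool.Agent.FLX.KerStmt) : JefStmt := by
  obtain ⟨C, hC, hJ⟩ := hJEG 1 (1 / 4) one_pos (by norm_num) (by norm_num)
  refine ⟨C, hC, ?_⟩
  intro f w E u hf hE hu0 hu1 hEu hm
  have hcap : MeasurableSet (cap w u) := (capClosed w u).measurableSet
  have hfi : Integrable f sig := integrable_cont hf.1
  have hB : MeasurableSet {p : S4 × S4 | p.2 ∉ cap w u} := measurable_snd hcap.compl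
  have hsplit : mas f w u + ∫ y in (cap w u)ᶜ, f y ∂sig = 1 := by
    unfold mas
    rw [integral_add_compl hcap hfi, hf.2.2]
  have hmas : mas f w u ≤ 1 := by
    have : 0 ≤ ∫ y in (cap w u)ᶜ, f y ∂sig :=
      setIntegral_nonneg hcap.compl (fun y _ => (hf.2.1 y).le)
    linarith
  obtain ⟨h1, h2⟩ := hJ f E {p : S4 × S4 | p.2 ∉ cap w u} hf hE hB (by
    intro x _
    change ∫ y in (cap w u)ᶜ, f y ∂sig ≤ 1 / 4
    linarith)
  change IntegrableOn (fun x => Real.exp (4 * 1 * ∫ y in (cap w u)ᶜ, max (ell x y) 0 * f y ∂sig)) E sig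
    at h1
  change ∫ x in E, Real.exp (4 * 1 * ∫ y in (cap w u)ᶜ, max (ell x y) 0 * f y ∂sig) ∂sig ≤ C at h2
  obtain ⟨c₀, _, hpot⟩ := hPOT
  have hcont : Continuous (pot f) := (hpot f hf.1).1
  have hlog : 0 ≤ -Real.log u := by
    have := Real.log_nonpos hu0.le hu1
    linarith
  -- pointwise bound
  have hpt : ∀ x ∈ E, Real.exp (4 * pot f x) ≤
      u ^ (-4 : ℝ) * Real.exp (4 * 1 * ∫ y in (cap w u)ᶜ, max (ell x y) 0 * f y ∂sig) := by
    intro x hx
    have hell : Integrable (fun y => ell x y * f y) sig := integrable_ell_mul (hKER.1 x) hf.1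
    have hmax : Integrable (fun y => max (ell x y) 0 * f y) sig := by
      refine hell.pos_part.congr (Eventually.of_forall fun y => ?_)
      show max (ell x y * f y) 0 = max (ell x y) 0 * f y
      rw [max_mul_of_nonneg _ _ (hf.2.1 y).le, zero_mul]
    have hle : ∀ y ∈ cap w u, ell x y ≤ -Real.log u := by
      intro y hy
      have e1 := nsq x w
      have e2 := nsq y w
      have e3 := nsq x y
      have hx4 := hEu x hx
      have hy1 : 1 - ⟪(w : E5), (y : E5)⟫_ℝ ≤ u := hy
      rw [real_inner_comm] at e1 e2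
      have tri : ‖(x : E5) - (w : E5)‖ ≤ ‖(x : E5) - (y : E5)‖ + ‖(y : E5) - (w : E5)‖ :=
        norm_sub_le_norm_sub_add_norm_sub _ _ _
      have n1 := norm_nonneg ((x : E5) - (w : E5))
      have n2 := norm_nonneg ((y : E5) - (w : E5))
      have n3 := norm_nonneg ((x : E5) - (y : E5))
      have hs : u ≤ 1 - ⟪(x : E5), (y : E5)⟫_ℝ := by
        by_contra hlt
        push Not at hlt
        nlinarith [sq_nonneg (‖(x : E5) - (y : E5)‖ - ‖(y : E5) - (w : E5)‖),
          mul_le_mul tri tri n1 (add_nonneg n3 n2)]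
      unfold ell
      have := Real.log_le_log hu0 hs
      linarith
    have i1 : ∫ y in cap w u, ell x y * f y ∂sig ≤ -Real.log u := by
      calc ∫ y in cap w u, ell x y * f y ∂sig
          ≤ ∫ y in cap w u, (-Real.log u) * f y ∂sig := by
            refine setIntegral_mono_on hell.integrableOn (hfi.const_mul _).integrableOn hcap ?_
            intro y hy
            exact mul_le_mul_of_nonneg_right (hle y hy) (hf.2.1 y).le
        _ = (-Real.log u) * mas f w u := by
            rw [integral_const_mul]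
            rfl
        _ ≤ (-Real.log u) * 1 := mul_le_mul_of_nonneg_left hmas hlog
        _ = -Real.log u := mul_one _
    have i2 : ∫ y in (cap w u)ᶜ, ell x y * f y ∂sig ≤
        ∫ y in (cap w u)ᶜ, max (ell x y) 0 * f y ∂sig := by
      refine setIntegral_mono_on hell.integrableOn hmax.integrableOn hcap.compl ?_
      intro y _
      exact mul_le_mul_of_nonneg_right (le_max_left _ _) (hf.2.1 y).le
    have i3 : pot f x = ∫ y in cap w u, ell x y * f y ∂sig +
        ∫ y in (cap w u)ᶜ, ell x y * f y ∂sig := (integral_add_compl hcap hell).symm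
    rw [Real.rpow_def_of_pos hu0, ← Real.exp_add]
    apply Real.exp_le_exp.2
    rw [i3]
    linarith
  calc ∫ x in E, Real.exp (4 * pot f x) ∂sig
      ≤ ∫ x in E, u ^ (-4 : ℝ) *
          Real.exp (4 * 1 * ∫ y in (cap w u)ᶜ, max (ell x y) 0 * f y ∂sig) ∂sig := by
        refine setIntegral_mono_on ?_ (h1.const_mul _) hE hpt
        exact (integrable_cont (by fun_prop)).integrableOn
    _ = u ^ (-4 : ℝ) * ∫ x in E,
          Real.exp (4 * 1 * ∫ y in (cap w u)ᶜ, max (ell x y) 0 * f y ∂sig) ∂sig :=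
        integral_const_mul _ _
    _ ≤ u ^ (-4 : ℝ) * C := mul_le_mul_of_nonneg_left h2 (Real.rpow_nonneg hu0.le _)
    _ = C * u ^ (-4 : ℝ) := mul_comm _ _

end Pool.Agent.PQP.H92
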