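import Pool.Agent.PQP.StmtsN
import Pool.Agent.Helper88_FLX.Slice

/-! Row VLO of squad PQP: lower bounds for caps, by the slice formula. -/

set_option autoImplicit false

open scoped InnerProductSpace Topology ContDiff Manifold
open MeasureTheory Filter Set

noncomputable section

namespace Pool.Agent.PQP.H92

open Pool.Agent.Helper42_Paneitz Pool.Agent.Helper82_Vir Pool.Agent.FLX

lemma capInt (z : S4) (u : ℝ) (hu0 : 0 < u) (hu1 : u ≤ 1) (g : ℝ → ℝ) (hg : Measurable g) :
    ∫ x in cap z u, g ⟪(z : E5), (x : E5)⟫_ℝ ∂sig =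
      ∫ s in (1 - u)..1, g s * ((3 / 4) * msig * (1 - s ^ 2)) := by
  have hcap : MeasurableSet (cap z u) := by
    have : Continuous (fun y : S4 => 1 - ⟪(z : E5), (y : E5)⟫_ℝ) := by fun_prop
    exact (isClosed_le this continuous_const).measurableSet
  rw [← integral_indicator hcap]
  have h1 : (cap z u).indicator (fun x : S4 => g ⟪(z : E5), (x : E5)⟫_ℝ) =
      fun x : S4 => (Set.Ici (1 - u)).indicator g ⟪(z : E5), (x : E5)⟫_ℝ := by
    funext x
    by_cases hx : x ∈ cap z u
    · have h2 : ⟪(z : E5), (x : E5)⟫_ℝ ∈ Set.Ici (1 - u) := by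
        have : 1 - ⟪(z : E5), (x : E5)⟫_ℝ ≤ u := hx
        rw [Set.mem_Ici]
        linarith
      rw [Set.indicator_of_mem hx, Set.indicator_of_mem h2]
    · have h2 : ⟪(z : E5), (x : E5)⟫_ℝ ∉ Set.Ici (1 - u) := by
        intro h3
        apply hx
        rw [Set.mem_Ici] at h3
        show 1 - ⟪(z : E5), (x : E5)⟫_ℝ ≤ u
        linarith
      rw [Set.indicator_of_notMem hx, Set.indicator_of_notMem h2]
  rw [h1, Pool.Agent.FLX.H88.integral_slice z _ (hg.indicator measurableSet_Ici),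
    intervalIntegral.integral_of_le (by norm_num), intervalIntegral.integral_of_le (by linarith),
    ← integral_Icc_eq_integral_Ioc (x := 1 - u)]
  have h2 : Set.Icc (1 - u) 1 = Set.Ioc (-1) 1 ∩ Set.Ici (1 - u) := by
    ext s
    simp only [Set.mem_Icc, Set.mem_inter_iff, Set.mem_Ioc, Set.mem_Ici]
    constructor
    · rintro ⟨h, h'⟩
      exact ⟨⟨by linarith, h'⟩, h⟩
    · rintro ⟨⟨_, h'⟩, h⟩
      exact ⟨h, h'⟩
  rw [h2, ← setIntegral_indicator measurableSet_Ici]
  refine integral_congr_ae (Eventually.of_forall fun s => ?_)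
  by_cases hs : s ∈ Set.Ici (1 - u)
  · simp only [Set.indicator_of_mem hs]
    rfl
  · simp only [Set.indicator_of_notMem hs, zero_mul]

theorem vlo : VloStmt := by
  have hm := msig_pos
  refine ⟨msig / 4, by positivity, ?_⟩
  intro z u hu0 hu1
  constructor
  · rw [capInt z u hu0 hu1 (fun _ => 1) measurable_const]
    have h1 : ∫ s in (1 - u)..1, (1 : ℝ) * ((3 / 4) * msig * (1 - s ^ 2)) =
        (3 / 4) * msig * (1 - 1 ^ 3 / 3) - (3 / 4) * msig * ((1 - u) - (1 - u) ^ 3 / 3) := by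
      refine intervalIntegral.integral_eq_sub_of_hasDerivAt
        (f := fun s => (3 / 4) * msig * (s - s ^ 3 / 3)) (fun s _ => ?_) ?_
      · have := (((hasDerivAt_id s).sub (((hasDerivAt_id s).pow 3).div_const 3)).const_mul
          ((3 / 4) * msig))
        refine this.congr_deriv ?_
        simp only [id]
        ring
      · apply Continuous.intervalIntegrable
        fun_prop
    rw [h1]
    have h2 : (3 / 4) * msig * (1 - 1 ^ 3 / 3) - (3 / 4) * msig * ((1 - u) - (1 - u) ^ 3 / 3) =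
        (3 / 4) * msig * (u ^ 2 - u ^ 3 / 3) := by ring
    rw [h2]
    have h3 : u ^ 3 ≤ u ^ 2 := pow_le_pow_of_le_one hu0.le hu1 (by norm_num)
    have h4 : 0 < u ^ 2 := by positivity
    nlinarith [mul_le_mul_of_nonneg_left h3 hm.le, mul_pos hm h4]
  · rw [capInt z u hu0 hu1 (fun s => 1 - s) (by fun_prop)]
    have h1 : ∫ s in (1 - u)..1, (1 - s) * ((3 / 4) * msig * (1 - s ^ 2)) =
        (3 / 4) * msig * (1 - 1 ^ 2 / 2 - 1 ^ 3 / 3 + 1 ^ 4 / 4) -
        (3 / 4) * msig * ((1 - u) - (1 - u) ^ 2 / 2 - (1 - u) ^ 3 / 3 + (1 - u) ^ 4 / 4) := by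
      refine intervalIntegral.integral_eq_sub_of_hasDerivAt
        (f := fun s => (3 / 4) * msig * (s - s ^ 2 / 2 - s ^ 3 / 3 + s ^ 4 / 4)) (fun s _ => ?_) ?_
      · have := (((((hasDerivAt_id s).sub (((hasDerivAt_id s).pow 2).div_const 2)).sub
          (((hasDerivAt_id s).pow 3).div_const 3)).add
          (((hasDerivAt_id s).pow 4).div_const 4)).const_mul ((3 / 4) * msig))
        refine this.congr_deriv ?_
        simp only [id]
        ring
      · apply Continuous.intervalIntegrable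
        fun_prop
    rw [h1]
    have h2 : (3 / 4) * msig * (1 - 1 ^ 2 / 2 - 1 ^ 3 / 3 + 1 ^ 4 / 4) -
        (3 / 4) * msig * ((1 - u) - (1 - u) ^ 2 / 2 - (1 - u) ^ 3 / 3 + (1 - u) ^ 4 / 4) =
        (3 / 4) * msig * (2 * u ^ 3 / 3 - u ^ 4 / 4) := by ring
    rw [h2]
    have h3 : u ^ 4 ≤ u ^ 3 := pow_le_pow_of_le_one hu0.le hu1 (by norm_num)
    have h4 : 0 < u ^ 3 := by positivity
    nlinarith [mul_le_mul_of_nonneg_left h3 hm.le, mul_pos hm h4]

end Pool.Agent.PQP.H92
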